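import Pool.Agent.N537.CS.Two
import Pool.Agent.N537.CS.Three

/-!
# The kinetic inequality in `ℝ³` with the semiclassical constant for closed shells

A closed shell system with the finite set `Λ` of angular momenta consists of the functions
`u_{l,n,j}(x) = G_{l,n}(|x|) P_{l,j}(x)`, `l ∈ Λ`, where for every `l` the `P_{l,j}`, `j ≤ 2 l + 1`, are
a full multiplet of angular momentum `l` (a basis of the spherical harmonics of degree `l`, multiplied
by `|x|^l`). For these systems the kinetic inequality in `ℝ³` holds with the semiclassical constant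
`K_3^c = (3/5) (6 π²)^(2/3)` if `Λ` is contained in a window `{L, …, 4 L - 2}`, for all `L ≥ 1`.

Proof. Let `s_l` be the density of the radial parts of the functions with angular momentum `l`. The
sharp inequality on the line (a starting file, `K_1 = π²/4`) bounds the kinetic energy from below by
`∑ (2 l + 1) ∫ (π²/4) s_l³ + l (l + 1) s_l / r²`. By duality the pointwise comparison of the integrand
with the power of the total density follows from `∑ (2 l + 1) (w² - l (l + 1))_+^(3/2) ≤ (√3/5) w⁵`,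
which is proved with the inequality of Hermite and Hadamard (it makes the sum telescope) and Jensen's
inequality.
-/

open MeasureTheory

namespace Pool.Agent.Results.MP_3242df_mp.ClosedShellWindows

open Pool.Agent.R117.RL Pool.Agent.N537.CS

/-- The semiclassical constant `K_3^c = (3/5) (6 π²) ^ (2/3)`. -/
noncomputable def Kc : ℝ := 3 / 5 * (6 * Real.pi ^ 2) ^ ((2 : ℝ) / 3)

theorem Kcl_eq : Kcl 3 = Kc := by
  have hπ := Real.pi_pos
  have hK0 : 0 ≤ Kcl 3 := by
    unfold Kcl
    have := om_pos 3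
    positivity
  have hR0 : 0 ≤ Kc := by
    unfold Kc
    positivity
  rw [← pow_left_inj₀ hK0 hR0 (n := 3) (by norm_num), Kcl_pow (by norm_num), Ga_three]
  unfold Kc
  have e1 : ((6 * Real.pi ^ 2) ^ ((2 : ℝ) / 3)) ^ 3 = (6 * Real.pi ^ 2) ^ 2 := by
    rw [← Real.rpow_natCast, ← Real.rpow_mul (by positivity), ← Real.rpow_natCast]
    norm_num
  rw [mul_pow (3 / 4) (√Real.pi) 2, Real.sq_sqrt hπ.le, mul_pow (3 / 5 : ℝ), e1]
  push_cast
  ring

/-- **The kinetic inequality for closed shells.** `Mixed Λ g N P u`: for every `l` in `Λ` the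
functions `P l j`, `j < 2 l + 1`, are a multiplet of angular momentum `l` (`Shell`), and the
`u l n j (x) = G_{l,n}(|x|) P l j (x)`, `n < N l`, are orthonormal with finite kinetic energy
(`ShellSystem`); `grad2 u = |∇u|²`; `E 3` is the Euclidean space `ℝ³`. -/
theorem result (L : ℕ) (hL : 1 ≤ L) (Λ : Finset ℕ) (hΛ : ∀ l ∈ Λ, L ≤ l ∧ l ≤ 4 * L - 2)
    (N : ℕ → ℕ) (P : ∀ l, Fin (2 * l + 1) → E 3 → ℝ)
    (u : ∀ l, Fin (N l) → Fin (2 * l + 1) → E 3 → ℂ) (h : Mixed Λ (fun l => 2 * l + 1) N P u) :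
    Integrable (fun x => (∑ l ∈ Λ, ∑ n, ∑ j, ‖u l n j x‖ ^ 2) ^ (5 / 3 : ℝ)) ∧
    Kc * (∫ x, (∑ l ∈ Λ, ∑ n, ∑ j, ‖u l n j x‖ ^ 2) ^ (5 / 3 : ℝ)) ≤
      ∑ l ∈ Λ, ∑ n, ∑ j, ∫ x, grad2 (u l n j) x := by
  have h1 := three' hL (Λ := Λ) (fun l hl => by
    have := hΛ l hl
    rw [Finset.mem_Ico]
    omega) h
  rw [Kcl_eq] at h1
  have e : (1 + 2 / ((3 : ℕ) : ℝ)) = 5 / 3 := by norm_num
  rw [e] at h1
  exact h1

end Pool.Agent.Results.MP_3242df_mp.ClosedShellWindows
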